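import Mathlib

set_option autoImplicit false

namespace Pool.Agent.Y893.Ch

open scoped BigOperators
open Filter

/-!
Algebraic core, over an arbitrary linearly ordered field `F` instead of the real numbers.
The argument is the one of the earlier file `MP_765488_mp/FiniteEquilibria`, with abstract weights
`W i` (instead of inverse powers of the distances) and a constant external field.
-/

/-- Functional lemma: a vector `Y` over an `F`-vector space `K` which lies in the span of
`F`-rational vectors `U i` modulo the subspace `M`, and whose products with the `U i` lie in `M`,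
lies in `M` coordinatewise. -/
theorem functional_lemma {F : Type*} [Field F] [LinearOrder F] [IsStrictOrderedRing F]
    {K : Type*} [AddCommGroup K] [Module F K] (M : Submodule F K)
    {κ ι : Type*} [Fintype κ] (J : Finset ι) (Y : κ → K) (c : ι → K) (U : ι → κ → F)
    (h1 : ∀ k, Y k - ∑ i ∈ J, U i k • c i ∈ M)
    (h2 : ∀ i ∈ J, ∑ k, U i k • Y k ∈ M) : ∀ k, Y k ∈ M := by
  intro k₀
  by_contra hk
  obtain ⟨f, hf, hM⟩ := Submodule.exists_le_ker_of_notMem hk
  have hfM : ∀ z ∈ M, f z = 0 := fun z hz => LinearMap.mem_ker.mp (hM hz)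
  have hz : ∀ k, f (Y k) = ∑ i ∈ J, U i k * f (c i) := by
    intro k
    have h := hfM _ (h1 k)
    rw [map_sub, map_sum, sub_eq_zero] at h
    rw [h]
    exact Finset.sum_congr rfl fun i _ => by rw [map_smul, smul_eq_mul]
  have hdot : ∀ i ∈ J, ∑ k, U i k * f (Y k) = 0 := by
    intro i hi
    have h := hfM _ (h2 i hi)
    rw [map_sum] at h
    rw [← h]
    exact Finset.sum_congr rfl fun k _ => by rw [map_smul, smul_eq_mul]
  have hsq : ∑ k, f (Y k) * f (Y k) = 0 := by
    calc ∑ k, f (Y k) * f (Y k) = ∑ k, ∑ i ∈ J, f (c i) * (U i k * f (Y k)) := by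
          refine Finset.sum_congr rfl fun k _ => ?_
          conv_lhs => rw [hz k, ← hz k]
          nth_rewrite 1 [hz k]
          rw [Finset.sum_mul]
          exact Finset.sum_congr rfl fun i _ => by ring
      _ = ∑ i ∈ J, f (c i) * ∑ k, U i k * f (Y k) := by
          rw [Finset.sum_comm]
          exact Finset.sum_congr rfl fun i _ => by rw [Finset.mul_sum]
      _ = 0 := Finset.sum_eq_zero fun i hi => by rw [hdot i hi, mul_zero]
  have := (Finset.sum_eq_zero_iff_of_nonneg (fun k _ => mul_self_nonneg (f (Y k)))).mp hsq k₀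
    (Finset.mem_univ _)
  exact hf (mul_self_eq_zero.mp this)

section Place

variable {F : Type*} [Field F] [LinearOrder F] [IsStrictOrderedRing F]
  {K : Type*} [Field K] [Algebra F K] {Γ : Type*} [LinearOrderedCommGroupWithZero Γ]
  (v : Valuation K Γ) (hv : ∀ r : F, v (algebraMap F K r) ≤ 1)

include hv

omit [LinearOrder F] [IsStrictOrderedRing F] in
theorem v_real {r : F} (hr : r ≠ 0) : v (algebraMap F K r) = 1 := by
  refine le_antisymm (hv r) ?_
  have h1 := hv r⁻¹
  rw [map_inv₀, map_inv₀] at h1
  have h0 : v (algebraMap F K r) ≠ 0 := by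
    rw [Valuation.ne_zero_iff]
    exact fun h => hr ((map_eq_zero _).mp h)
  exact (inv_le_one₀ (zero_lt_iff.mpr h0)).mp h1

omit [LinearOrder F] [IsStrictOrderedRing F] in
theorem real_eq_zero {r : F} (hr : v (algebraMap F K r) < 1) : r = 0 := by
  by_contra h
  rw [v_real v hv h] at hr
  exact lt_irrefl _ hr

/-- elements of value at most one -/
def ringM : Submodule F K where
  carrier := {z | v z ≤ 1}
  add_mem' := fun {a b} ha hb => (Valuation.map_add v a b).trans (max_le ha hb)
  zero_mem' := by simp
  smul_mem' := by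
    intro r z hz
    simp only [Set.mem_ofPred_eq] at hz ⊢
    rw [Algebra.smul_def, map_mul]
    exact mul_le_one' (hv r) hz

/-- elements which differ from an element of `F` by an element of value less than one -/
def nearReal : Submodule F K where
  carrier := {z | ∃ r : F, v (z - algebraMap F K r) < 1}
  add_mem' := by
    rintro a b ⟨r, hr⟩ ⟨s, hs⟩
    refine ⟨r + s, ?_⟩
    have : a + b - algebraMap F K (r + s) = (a - algebraMap F K r) + (b - algebraMap F K s) := by
      rw [map_add]; ring
    rw [this]
    exact (Valuation.map_add v _ _).trans_lt (max_lt hr hs)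
  zero_mem' := ⟨0, by simp⟩
  smul_mem' := by
    rintro r z ⟨s, hs⟩
    refine ⟨r * s, ?_⟩
    have : r • z - algebraMap F K (r * s) = algebraMap F K r * (z - algebraMap F K s) := by
      rw [Algebra.smul_def, map_mul]; ring
    rw [this, map_mul]
    exact (mul_le_of_le_one_left' (hv r)).trans_lt hs

omit [LinearOrder F] [IsStrictOrderedRing F] in
theorem mem_ringM (z : K) : z ∈ ringM v hv ↔ v z ≤ 1 := Iff.rfl

omit [LinearOrder F] [IsStrictOrderedRing F] in
theorem mem_nearReal (z : K) : z ∈ nearReal v hv ↔ ∃ r : F, v (z - algebraMap F K r) < 1 := Iff.rfl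

omit [LinearOrder F] [IsStrictOrderedRing F] [Algebra F K] hv in
theorem v_sum_le {ι : Type*} (J : Finset ι) (f : ι → K) (h : ∀ i ∈ J, v (f i) ≤ 1) :
    v (∑ i ∈ J, f i) ≤ 1 :=
  Valuation.map_sum_le v h

omit [LinearOrder F] [IsStrictOrderedRing F] in
theorem v_smul_le (r : F) {z : K} (h : v z ≤ 1) : v (r • z) ≤ 1 := by
  rw [Algebra.smul_def, map_mul]
  exact mul_le_one' (hv r) h

omit [LinearOrder F] [IsStrictOrderedRing F] in
theorem v_smul_lt (r : F) {z : K} (h : v z < 1) : v (r • z) < 1 := by
  rw [Algebra.smul_def, map_mul]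
  exact (mul_le_of_le_one_left' (hv r)).trans_lt h

end Place

section Core

variable {F : Type*} [Field F] [LinearOrder F] [IsStrictOrderedRing F]
  {K : Type*} [Field K] [Algebra F K]
  {ι : Type*} [Fintype ι] {κ : Type*} [Fintype κ]

omit [Fintype ι] in
theorem polar (a : ι → κ → F) (X : κ → K) (R : ι → K)
    (hR : ∀ i, R i ^ 2 = ∑ k, (X k - algebraMap F K (a i k)) ^ 2) (i j : ι) :
    ∑ k, (a i k - a j k) • (X k - algebraMap F K (a j k)) =
      (1 / 2 : F) • (R j ^ 2 - R i ^ 2) +
        algebraMap F K (1 / 2 * ∑ k, (a i k - a j k) ^ 2) := by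
  rw [hR i, hR j, ← Finset.sum_sub_distrib, Finset.smul_sum, Finset.mul_sum, map_sum,
    ← Finset.sum_add_distrib]
  refine Finset.sum_congr rfl fun k _ => ?_
  have h2 : (2 : K) ≠ 0 := by
    have h := (map_ne_zero (algebraMap F K)).mpr (two_ne_zero : (2 : F) ≠ 0)
    rwa [map_ofNat] at h
  simp only [Algebra.smul_def, map_sub, map_mul, map_pow, map_div₀, map_one, map_ofNat]
  field_simp
  ring

omit [LinearOrder F] [IsStrictOrderedRing F] [Fintype κ] in
theorem shift (a : ι → κ → F) (X : κ → K) (s : ι → K) (e : κ → F)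
    (heq : ∀ k, ∑ i, s i * (X k - algebraMap F K (a i k)) = algebraMap F K (e k)) (j : ι) (k : κ) :
    (∑ i, s i) * (X k - algebraMap F K (a j k)) =
      ∑ i, (a i k - a j k) • s i + algebraMap F K (e k) := by
  have h := heq k
  have h2 : ∑ i, (a i k - a j k) • s i =
      (∑ i, s i) * (X k - algebraMap F K (a j k)) -
        ∑ i, s i * (X k - algebraMap F K (a i k)) := by
    rw [Finset.sum_mul, ← Finset.sum_sub_distrib]
    refine Finset.sum_congr rfl fun i _ => ?_
    simp only [Algebra.smul_def, map_sub]
    ring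
  rw [h2, h, sub_add_cancel]

variable {Γ : Type*} [LinearOrderedCommGroupWithZero Γ]
  (v : Valuation K Γ) (hv : ∀ r : F, v (algebraMap F K r) ≤ 1)

include hv in
/-- The sum of the weights has value at most one. -/
theorem S_le (a : ι → κ → F) (e : κ → F)
    (ha : Function.Injective a) (X : κ → K) (R W : ι → K)
    (hR : ∀ i, R i ^ 2 = ∑ k, (X k - algebraMap F K (a i k)) ^ 2)
    (hW1 : ∀ i, ¬ v (R i) < 1 → v (W i) ≤ 1)
    (hW2 : ∀ i, v (R i) < 1 → 1 < v (W i * R i))
    (heq : ∀ k, ∑ i, W i * (X k - algebraMap F K (a i k)) = algebraMap F K (e k)) :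
    v (∑ i, W i) ≤ 1 := by
  classical
  by_contra hcon
  rw [not_le] at hcon
  set S : K := ∑ i, W i with hS
  have hS0 : S ≠ 0 := by
    rintro h
    rw [h, map_zero] at hcon
    exact not_lt_zero hcon
  set J : Finset ι := Finset.univ.filter (fun i => v (R i) < 1) with hJ
  have hJmem : ∀ i, i ∈ J ↔ v (R i) < 1 := fun i => by simp [hJ]
  -- some `R` is small
  have hne : J.Nonempty := by
    by_contra hne
    rw [Finset.not_nonempty_iff_eq_empty] at hne
    refine absurd hcon (not_lt.mpr ?_)
    refine v_sum_le v _ _ fun i _ => hW1 i ?_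
    rw [← hJmem, hne]
    exact Finset.notMem_empty i
  obtain ⟨j, hj⟩ := hne
  have hjlt := (hJmem j).mp hj
  have hvS : v S ≠ 0 := by rw [Valuation.ne_zero_iff]; exact hS0
  have hSinv : v S⁻¹ < 1 := by
    rw [map_inv₀]
    exact inv_lt_one_of_one_lt₀ hcon
  -- the point is near-real
  have hnear : ∀ k, (X k - algebraMap F K (a j k)) ∈ nearReal v hv := by
    refine functional_lemma (nearReal v hv) J (fun k => X k - algebraMap F K (a j k))
      (fun i => W i / S) (fun i k => a i k - a j k) ?_ ?_
    · intro k
      have h1 : (X k - algebraMap F K (a j k)) =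
          ∑ i, (a i k - a j k) • (W i / S) + algebraMap F K (e k) * S⁻¹ := by
        have := shift a X W e heq j k
        rw [← hS] at this
        rw [eq_comm, ← mul_right_inj' hS0, this, mul_add, Finset.mul_sum]
        congr 1
        · refine Finset.sum_congr rfl fun i _ => ?_
          simp only [Algebra.smul_def]
          field_simp
        · field_simp
      rw [h1, ← Finset.sum_compl_add_sum J, add_assoc,
        add_comm (∑ i ∈ J, (a i k - a j k) • (W i / S)), ← add_assoc, add_sub_cancel_right]
      refine Submodule.add_mem _ (Submodule.sum_mem _ fun i hi => ?_) ?_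
      · refine Submodule.smul_mem _ _ ?_
        rw [mem_nearReal]
        refine ⟨0, ?_⟩
        rw [map_zero, sub_zero, div_eq_mul_inv, map_mul]
        have hi' : ¬ v (R i) < 1 := by
          rw [← hJmem]
          exact Finset.mem_compl.mp hi
        exact (mul_le_of_le_one_left' (hW1 i hi')).trans_lt hSinv
      · rw [mem_nearReal]
        refine ⟨0, ?_⟩
        rw [map_zero, sub_zero, map_mul]
        exact (mul_le_of_le_one_left' (hv _)).trans_lt hSinv
    · intro i hi
      rw [polar a X R hR i j, mem_nearReal]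
      refine ⟨1 / 2 * ∑ k, (a i k - a j k) ^ 2, ?_⟩
      rw [add_sub_cancel_right]
      refine v_smul_lt v hv _ ?_
      refine (Valuation.map_sub v _ _).trans_lt (max_lt ?_ ?_)
      · rw [map_pow]
        exact pow_lt_one₀ zero_le hjlt two_ne_zero
      · rw [map_pow]
        exact pow_lt_one₀ zero_le ((hJmem i).mp hi) two_ne_zero
  choose p hp using hnear
  have hpeq : ∀ i ∈ J, ∀ k, p k = a i k - a j k := by
    intro i hi
    have hlt : v (algebraMap F K (∑ k, (p k - (a i k - a j k)) ^ 2)) < 1 := by
      have h1 : algebraMap F K (∑ k, (p k - (a i k - a j k)) ^ 2) =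
          R i ^ 2 - ∑ k, (X k - algebraMap F K (a j k) - algebraMap F K (p k)) *
            ((X k - algebraMap F K (a j k) - algebraMap F K (p k)) +
              algebraMap F K (2 * (p k - (a i k - a j k)))) := by
        rw [hR i, ← Finset.sum_sub_distrib, map_sum]
        refine Finset.sum_congr rfl fun k _ => ?_
        simp only [map_sub, map_mul, map_pow, map_ofNat]
        ring
      rw [h1]
      refine (Valuation.map_sub v _ _).trans_lt (max_lt ?_ ?_)
      · rw [map_pow]
        exact pow_lt_one₀ zero_le ((hJmem i).mp hi) two_ne_zero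
      · refine Valuation.map_sum_lt v one_ne_zero fun k _ => ?_
        rw [map_mul]
        refine mul_lt_one_of_lt_of_le (hp k) ?_
        exact (Valuation.map_add v _ _).trans (max_le (hp k).le (hv _))
    have h0 := real_eq_zero v hv hlt
    intro k
    have := (Finset.sum_eq_zero_iff_of_nonneg
      (fun k _ => sq_nonneg (p k - (a i k - a j k)))).mp h0 k (Finset.mem_univ _)
    have := pow_eq_zero_iff two_ne_zero |>.mp this
    linarith
  have hJj : ∀ i ∈ J, i = j := by
    intro i hi
    apply ha
    funext k
    have h1 := hpeq i hi k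
    have h2 := hpeq j hj k
    linarith
  have hSR : v (S * R j) ≤ 1 := by
    have h1 : ∀ k, v (S * (X k - algebraMap F K (a j k))) ≤ 1 := by
      intro k
      rw [hS, shift a X W e heq j k]
      refine (Valuation.map_add v _ _).trans (max_le (v_sum_le v _ _ fun i _ => ?_) (hv _))
      by_cases hij : i = j
      · subst hij
        simp
      · refine v_smul_le v hv _ (hW1 i ?_)
        rw [← hJmem]
        exact fun h => hij (hJj i h)
    have h2 : v ((S * R j) ^ 2) ≤ 1 := by
      have : (S * R j) ^ 2 = ∑ k, (S * (X k - algebraMap F K (a j k))) ^ 2 := by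
        rw [mul_pow, hR j, Finset.mul_sum]
        exact Finset.sum_congr rfl fun k _ => by ring
      rw [this]
      refine v_sum_le v _ _ fun k _ => ?_
      rw [map_pow]
      exact pow_le_one' (h1 k) 2
    rw [map_pow] at h2
    by_contra h3
    rw [not_le] at h3
    exact absurd (one_lt_pow₀ h3 two_ne_zero) (not_lt.mpr h2)
  have hlast : v (W j * R j) ≤ 1 := by
    have h1 : W j * R j = S * R j - ∑ i ∈ Finset.univ.erase j, W i * R j := by
      rw [hS, ← Finset.add_sum_erase _ _ (Finset.mem_univ j), add_mul, Finset.sum_mul,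
        add_sub_cancel_right]
    rw [h1]
    refine (Valuation.map_sub v _ _).trans (max_le hSR ?_)
    refine v_sum_le v _ _ fun i hi => ?_
    rw [map_mul]
    refine mul_le_one' (hW1 i ?_) hjlt.le
    rw [← hJmem]
    exact fun h => (Finset.mem_erase.mp hi).1 (hJj i h)
  exact absurd (hW2 j hjlt) (not_lt.mpr hlast)

include hv in
/-- If the sum of the weights is a nonzero element of `F`, the point has coordinates of value
at most one. -/
theorem X_le (a : ι → κ → F) (e : κ → F) (X : κ → K) (R W : ι → K)
    (hR : ∀ i, R i ^ 2 = ∑ k, (X k - algebraMap F K (a i k)) ^ 2)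
    (hW1 : ∀ i, ¬ v (R i) < 1 → v (W i) ≤ 1)
    (heq : ∀ k, ∑ i, W i * (X k - algebraMap F K (a i k)) = algebraMap F K (e k))
    {σ : F} (hσ : σ ≠ 0) (hS : ∑ i, W i = algebraMap F K σ) (k₀ : κ) :
    v (X k₀) ≤ 1 := by
  classical
  have hc0 : algebraMap F K σ ≠ 0 := (map_ne_zero _).mpr hσ
  set J : Finset ι := Finset.univ.filter (fun i => v (R i) < 1) with hJ
  have hJmem : ∀ i, i ∈ J ↔ v (R i) < 1 := fun i => by simp [hJ]
  rcases J.eq_empty_or_nonempty with hne | ⟨j, hj⟩
  · have h1 : X k₀ = σ⁻¹ • (∑ i, (a i k₀) • W i + algebraMap F K (e k₀)) := by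
      have h := heq k₀
      have h2 : algebraMap F K σ * X k₀ = ∑ i, (a i k₀) • W i + algebraMap F K (e k₀) := by
        rw [← h, ← hS, Finset.sum_mul, ← Finset.sum_add_distrib]
        refine Finset.sum_congr rfl fun i _ => ?_
        simp only [Algebra.smul_def]
        ring
      rw [← h2, Algebra.smul_def, map_inv₀, ← mul_assoc, inv_mul_cancel₀ hc0, one_mul]
    rw [h1]
    refine v_smul_le v hv _ ((Valuation.map_add v _ _).trans (max_le
      (v_sum_le v _ _ fun i _ => v_smul_le v hv _ ?_) (hv _)))
    refine hW1 i ?_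
    rw [← hJmem, hne]
    exact Finset.notMem_empty i
  · have hjlt := (hJmem j).mp hj
    have hnear : ∀ k, (X k - algebraMap F K (a j k)) ∈ ringM v hv := by
      refine functional_lemma (ringM v hv) J (fun k => X k - algebraMap F K (a j k))
        (fun i => σ⁻¹ • W i) (fun i k => a i k - a j k) ?_ ?_
      · intro k
        have h1 : (X k - algebraMap F K (a j k)) =
            ∑ i, (a i k - a j k) • (σ⁻¹ • W i) + σ⁻¹ • algebraMap F K (e k) := by
          have := shift a X W e heq j k
          rw [hS] at this
          rw [eq_comm, ← mul_right_inj' hc0, this, mul_add, Finset.mul_sum]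
          congr 1
          · refine Finset.sum_congr rfl fun i _ => ?_
            simp only [Algebra.smul_def, map_inv₀]
            field_simp
          · simp only [Algebra.smul_def, map_inv₀]
            field_simp
        rw [h1, ← Finset.sum_compl_add_sum J, add_assoc,
          add_comm (∑ i ∈ J, (a i k - a j k) • (σ⁻¹ • W i)), ← add_assoc, add_sub_cancel_right]
        refine Submodule.add_mem _ (Submodule.sum_mem _ fun i hi => ?_) ?_
        · refine Submodule.smul_mem _ _ (Submodule.smul_mem _ _ ?_)
          rw [mem_ringM]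
          have hi' : ¬ v (R i) < 1 := by
            rw [← hJmem]
            exact Finset.mem_compl.mp hi
          exact hW1 i hi'
        · refine Submodule.smul_mem _ _ ?_
          rw [mem_ringM]
          exact hv _
      · intro i hi
        rw [polar a X R hR i j, mem_ringM]
        refine (Valuation.map_add v _ _).trans (max_le (v_smul_le v hv _ ?_) (hv _))
        refine (Valuation.map_sub v _ _).trans (max_le ?_ ?_)
        · rw [map_pow]
          exact pow_le_one' hjlt.le 2
        · rw [map_pow]
          exact pow_le_one' ((hJmem i).mp hi).le 2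
    have h := (mem_ringM v hv _).mp (hnear k₀)
    have h1 : X k₀ = (X k₀ - algebraMap F K (a j k₀)) + algebraMap F K (a j k₀) := by ring
    rw [h1]
    exact (Valuation.map_add v _ _).trans (max_le h (hv _))

/-- The algebraic core: over an extension `K` of `F` in which every element integral over `F` is in
`F`, every solution of the equilibrium equations with nonzero total weight is `F`-rational. -/
theorem core (hK : ∀ z : K, IsIntegral F z → ∃ r : F, algebraMap F K r = z)
    (a : ι → κ → F) (e : κ → F)
    (ha : Function.Injective a) (X : κ → K) (R W : ι → K)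
    (hR : ∀ i, R i ^ 2 = ∑ k, (X k - algebraMap F K (a i k)) ^ 2)
    (hW1 : ∀ V : ValuationSubring K, (∀ r : F, V.valuation (algebraMap F K r) ≤ 1) →
      ∀ i, ¬ V.valuation (R i) < 1 → V.valuation (W i) ≤ 1)
    (hW2 : ∀ V : ValuationSubring K, (∀ r : F, V.valuation (algebraMap F K r) ≤ 1) →
      ∀ i, V.valuation (R i) < 1 → 1 < V.valuation (W i * R i))
    (heq : ∀ k, ∑ i, W i * (X k - algebraMap F K (a i k)) = algebraMap F K (e k))
    (hS : ∑ i, W i ≠ 0) (k : κ) : ∃ r : F, algebraMap F K r = X k := by
  have hinst : IsIntegrallyClosedIn (algebraMap F K).range K := by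
    rw [Subring.isIntegrallyClosedIn_iff]
    intro x hx
    have hx' : IsIntegral F x := by
      obtain ⟨p, hp, hpx⟩ := hx
      have hsurj : Function.Surjective (algebraMap F K).rangeRestrict :=
        (algebraMap F K).rangeRestrict_surjective
      obtain ⟨p', hp', -, hmon⟩ := Polynomial.lifts_and_natDegree_eq_and_monic
        (f := (algebraMap F K).rangeRestrict) (p := p)
        ((Polynomial.lifts_iff_coeff_lifts p).mpr fun m => hsurj _) hp
      refine ⟨p', hmon, ?_⟩
      rw [← hp', Polynomial.eval₂_map] at hpx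
      exact hpx
    obtain ⟨r, hr⟩ := hK x hx'
    exact ⟨r, hr⟩
  have key : ∀ z : K, (∀ V : ValuationSubring K, (∀ r : F, V.valuation (algebraMap F K r) ≤ 1) →
      V.valuation z ≤ 1) → ∃ r : F, algebraMap F K r = z := by
    intro z hz
    by_contra hcon
    have hz' : z ∉ (algebraMap F K).range := fun h => hcon h
    obtain ⟨V, hV, hzV⟩ := Subring.exists_le_valuationSubring_of_isIntegrallyClosedIn hz'
    refine hzV ((V.valuation_le_one_iff z).mp (hz V fun r => ?_))
    exact (V.valuation_le_one_iff _).mpr (hV ⟨r, rfl⟩)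
  obtain ⟨σ, hσ⟩ := key (∑ i, W i) fun V hV =>
    S_le V.valuation hV a e ha X R W hR (hW1 V hV) (hW2 V hV) heq
  have hσ0 : σ ≠ 0 := by
    rintro rfl
    rw [map_zero] at hσ
    exact hS hσ.symm
  exact key (X k) fun V hV => X_le V.valuation hV a e X R W hR (hW1 V hV) heq hσ0 hσ.symm k

end Core

end Pool.Agent.Y893.Ch
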