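import Pool.Agent.Y893.Ch.Core

set_option autoImplicit false

namespace Pool.Agent.Y893.Ch

open scoped BigOperators
open Filter

section ValPoly

variable {K : Type*} [Field K] [Algebra ℝ K] {Γ : Type*} [LinearOrderedCommGroupWithZero Γ]
  (v : Valuation K Γ) (hv : ∀ r : ℝ, v (algebraMap ℝ K r) ≤ 1)

include hv in
theorem vpoly_le {M : ℕ} (c : Fin (M + 1) → ℝ) (t : K) (ht : v t ≤ 1) :
    v (∑ l, algebraMap ℝ K (c l) * t ^ (l : ℕ)) ≤ 1 := by
  refine v_sum_le v _ _ fun l _ => ?_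
  rw [map_mul, map_pow]
  exact mul_le_one' (hv _) (pow_le_one' ht _)

include hv in
theorem vpoly_gt {M : ℕ} (D : ℕ) (c : Fin (M + 1) → ℝ) (t : K) (ht : 1 < v t)
    (hc : ∃ m : Fin (M + 1), D < (m : ℕ) ∧ c m ≠ 0) :
    1 < v ((∑ l, algebraMap ℝ K (c l) * t ^ (l : ℕ)) * (t⁻¹) ^ D) := by
  classical
  obtain ⟨m₁, hm₁, hcm₁⟩ := hc
  set A : Finset (Fin (M + 1)) := Finset.univ.filter fun l => c l ≠ 0 with hA
  have hAne : A.Nonempty := ⟨m₁, by simp [hA, hcm₁]⟩
  obtain ⟨m₀, hm₀A, hmax⟩ := A.exists_max_image (fun l => (l : ℕ)) hAne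
  have hcm₀ : c m₀ ≠ 0 := by simpa [hA] using hm₀A
  have hm₀ : D < (m₀ : ℕ) := lt_of_lt_of_le hm₁ (hmax m₁ (by simp [hA, hcm₁]))
  have ht0 : v t ≠ 0 := (lt_trans zero_lt_one ht).ne'
  have ht0' : t ≠ 0 := by rwa [Valuation.ne_zero_iff] at ht0
  have hlead : v (algebraMap ℝ K (c m₀) * t ^ (m₀ : ℕ)) = v t ^ (m₀ : ℕ) := by
    rw [map_mul, map_pow, v_real v hv hcm₀, one_mul]
  have hrest : v (∑ l ∈ Finset.univ.erase m₀, algebraMap ℝ K (c l) * t ^ (l : ℕ)) <
      v t ^ (m₀ : ℕ) := by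
    refine Valuation.map_sum_lt v (pow_ne_zero _ ht0) fun l hl => ?_
    by_cases hcl : c l = 0
    · rw [hcl, map_zero, zero_mul, map_zero]
      exact zero_lt_iff.mpr (pow_ne_zero _ ht0)
    · have h1 : (l : ℕ) ≤ m₀ := hmax l (by simp [hA, hcl])
      have h2 : (l : ℕ) < m₀ := lt_of_le_of_ne h1 fun h => (Finset.mem_erase.mp hl).1 (Fin.ext h)
      rw [map_mul, map_pow, v_real v hv hcl, one_mul]
      exact pow_lt_pow_right₀ ht h2
  have hsum : v (∑ l, algebraMap ℝ K (c l) * t ^ (l : ℕ)) = v t ^ (m₀ : ℕ) := by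
    rw [← Finset.add_sum_erase _ _ (Finset.mem_univ m₀), ← hlead]
    exact Valuation.map_add_eq_of_lt_left v (by rw [hlead]; exact hrest)
  rw [map_mul, hsum, map_pow, map_inv₀]
  obtain ⟨k, hk⟩ := Nat.exists_eq_add_of_lt hm₀
  rw [hk, add_assoc, add_comm D, pow_add, mul_assoc, ← mul_pow, mul_inv_cancel₀ ht0, one_pow,
    mul_one]
  exact one_lt_pow₀ ht (Nat.succ_ne_zero k)

end ValPoly

section GermField

/-- the nonstandard real field -/
abbrev KK : Type := Germ (hyperfilter ℕ : Filter ℕ) ℝ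

/-- the class of a sequence -/
noncomputable def cls : (ℕ → ℝ) →+* KK := Germ.coeRingHom (hyperfilter ℕ : Filter ℕ)

theorem cls_surj (z : KK) : ∃ f, cls f = z := by
  induction z using Germ.inductionOn with
  | h f => exact ⟨f, rfl⟩

theorem cls_eq_iff (f g : ℕ → ℝ) : cls f = cls g ↔ ∀ᶠ m in (hyperfilter ℕ : Filter ℕ), f m = g m :=
  Germ.coe_eq

theorem cls_inv (f : ℕ → ℝ) : cls f⁻¹ = (cls f)⁻¹ := Germ.coe_inv f

/-- the real numbers inside the nonstandard reals -/
noncomputable def stdHom : ℝ →+* KK := cls.comp (Pi.constRingHom ℕ ℝ)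

theorem stdHom_apply (r : ℝ) : stdHom r = cls (fun _ => r) := rfl

theorem integral_std (z : KK) {p : Polynomial ℝ} (hp : p ≠ 0)
    (hz : p.eval₂ stdHom z = 0) : ∃ r : ℝ, stdHom r = z := by
  obtain ⟨f, rfl⟩ := cls_surj z
  unfold stdHom at hz
  rw [← Polynomial.hom_eval₂] at hz
  have h0 : cls (p.eval₂ (Pi.constRingHom ℕ ℝ) f) = cls 0 := by rw [hz, map_zero]
  rw [cls_eq_iff] at h0
  have h1 : ∀ m, p.eval₂ (Pi.constRingHom ℕ ℝ) f m = p.eval (f m) := by
    intro m
    have h := Polynomial.hom_eval₂ p (Pi.constRingHom ℕ ℝ) (Pi.evalRingHom (fun _ : ℕ => ℝ) m) f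
    have h2 : (Pi.evalRingHom (fun _ : ℕ => ℝ) m).comp (Pi.constRingHom ℕ ℝ) = RingHom.id ℝ := by
      ext r
      rfl
    rw [h2] at h
    exact h
  have h2 : ∀ᶠ m in (hyperfilter ℕ : Filter ℕ), ∃ r ∈ (↑p.roots.toFinset : Set ℝ), f m = r := by
    filter_upwards [h0] with m hm
    refine ⟨f m, ?_, rfl⟩
    rw [h1] at hm
    simp [hp, hm]
  rw [Ultrafilter.eventually_exists_mem_iff (Finset.finite_toSet _)] at h2
  obtain ⟨r, -, hr⟩ := h2
  exact ⟨r, ((cls_eq_iff _ _).mpr (hr.mono fun m hm => hm.symm))⟩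

end GermField

/-- the value at `t` of the polynomial with coefficients `c` -/
def pol {M : ℕ} (c : Fin (M + 1) → ℝ) (t : ℝ) : ℝ := ∑ l, c l * t ^ (l : ℕ)

/-- Finiteness of the solution set of the equilibrium equations. The force of the `i`-th centre on
the point `x` is `f i (1/ρ) • (x - a i)` with a polynomial `f i` of degree `> D` and
`ρ ^ D = |x - a i|`. -/
theorem finite_solutions {d N M D : ℕ} (hD : 1 ≤ D)
    (a : Fin N → EuclideanSpace ℝ (Fin d)) (c : Fin N → Fin (M + 1) → ℝ)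
    (ha : Function.Injective a) (hc : ∀ i, ∃ m : Fin (M + 1), D < (m : ℕ) ∧ c i m ≠ 0)
    (e : EuclideanSpace ℝ (Fin d)) (E : Set (EuclideanSpace ℝ (Fin d)))
    (hE : ∀ x ∈ E, (∀ i, x ≠ a i) ∧ ∃ t : Fin N → ℝ, (∀ i, 0 < t i) ∧
      (∀ i, (t i)⁻¹ ^ D = ‖x - a i‖) ∧
      (∀ k, ∑ i, pol (c i) (t i) * (x k - a i k) = e k) ∧
      ∑ i, pol (c i) (t i) ≠ 0) : E.Finite := by
  by_contra hinf
  have hinf' : E.Infinite := hinf
  set x : ℕ → EuclideanSpace ℝ (Fin d) := fun m => (hinf'.natEmbedding E m : _) with hx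
  have hxE : ∀ m, x m ∈ E := fun m => (hinf'.natEmbedding E m).2
  have hxinj : Function.Injective x := fun m m' h =>
    (hinf'.natEmbedding E).injective (Subtype.ext h)
  choose hne' t ht hR heq hS using fun m => hE (x m) (hxE m)
  let _ : Algebra ℝ KK := stdHom.toAlgebra
  have halg : ∀ r : ℝ, algebraMap ℝ KK r = stdHom r := fun r => rfl
  have hne : ∀ f : ℕ → ℝ, (∀ m, f m ≠ 0) → cls f ≠ 0 := by
    intro f hf h
    have h0 : cls f = cls 0 := by rw [h, map_zero]
    rw [cls_eq_iff] at h0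
    obtain ⟨m, hm⟩ := h0.exists
    exact hf m hm
  have hWcls : ∀ i, cls (fun m => pol (c i) (t m i)) =
      ∑ l, algebraMap ℝ KK (c i l) * (cls fun m => t m i) ^ (l : ℕ) := by
    intro i
    have : (fun m => pol (c i) (t m i)) = ∑ l, (fun _ => c i l) * (fun m => t m i) ^ (l : ℕ) := by
      funext m
      simp [pol, Finset.sum_apply]
    rw [this, map_sum]
    refine Finset.sum_congr rfl fun l _ => ?_
    rw [map_mul, map_pow, halg, stdHom_apply]
  have hTne : ∀ i, cls (fun m => t m i) ≠ 0 := fun i => hne _ fun m => (ht m i).ne'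
  have hRcls : ∀ i, cls (fun m => ‖x m - a i‖) = ((cls fun m => t m i)⁻¹) ^ D := by
    intro i
    rw [← cls_inv, ← map_pow]
    congr 1
    funext m
    simp only [Pi.pow_apply, Pi.inv_apply]
    rw [hR]
  have hcore := core (F := ℝ) (K := KK) ?_ (fun i k => a i k) (fun k => e k) ?_
    (fun k => cls (fun m => x m k)) (fun i => cls (fun m => ‖x m - a i‖))
    (fun i => cls (fun m => pol (c i) (t m i))) ?_ ?_ ?_ ?_ ?_
  · have h1 : ∀ k, ∃ r : ℝ, ∀ᶠ m in (hyperfilter ℕ : Filter ℕ), x m k = r := by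
      intro k
      obtain ⟨r, hr⟩ := hcore k
      rw [halg, stdHom_apply, cls_eq_iff] at hr
      exact ⟨r, hr.mono fun m hm => hm.symm⟩
    choose r hr using h1
    have h2 : ∀ᶠ m in (hyperfilter ℕ : Filter ℕ), ∀ k, x m k = r k := eventually_all.mpr hr
    have h3 : {m | ∀ k, x m k = r k}.Finite := by
      apply Set.Subsingleton.finite
      intro m hm m' hm'
      apply hxinj
      ext k
      exact (hm k).trans (hm' k).symm
    exact notMem_hyperfilter_of_finite h3 h2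
  · intro z hz
    obtain ⟨p, hp, hpz⟩ := hz
    exact integral_std z hp.ne_zero hpz
  · intro i j hij
    apply ha
    ext k
    exact congrFun hij k
  · intro i
    have : ∀ k, (cls (fun m => x m k) - algebraMap ℝ KK (a i k)) ^ 2 =
        cls (fun m => (x m k - a i k) ^ 2) := by
      intro k
      rw [halg, stdHom_apply, ← map_sub, ← map_pow]
      rfl
    simp only [this]
    rw [← map_pow, ← map_sum]
    congr 1
    funext m
    simp only [Pi.pow_apply, Finset.sum_apply]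
    rw [EuclideanSpace.real_norm_sq_eq]
    simp
  · intro V hV i hi
    rw [hWcls]
    refine vpoly_le V.valuation hV _ _ ?_
    by_contra hcon
    rw [not_le] at hcon
    apply hi
    rw [hRcls, map_pow, map_inv₀]
    exact pow_lt_one₀ zero_le (inv_lt_one_of_one_lt₀ hcon) (by omega)
  · intro V hV i hi
    rw [hRcls, hWcls]
    refine vpoly_gt V.valuation hV D _ _ ?_ (hc i)
    by_contra hcon
    rw [not_lt] at hcon
    refine absurd hi (not_lt.mpr ?_)
    rw [hRcls, map_pow, map_inv₀]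
    refine one_le_pow₀ ?_
    exact (one_le_inv₀ (zero_lt_iff.mpr ((Valuation.ne_zero_iff _).mpr (hTne i)))).mpr hcon
  · intro k
    have : ∀ i, cls (fun m => pol (c i) (t m i)) *
        (cls (fun m => x m k) - algebraMap ℝ KK (a i k)) =
        cls (fun m => pol (c i) (t m i) * (x m k - a i k)) := by
      intro i
      rw [halg, stdHom_apply, ← map_sub, ← map_mul]
      rfl
    simp only [this]
    rw [← map_sum, halg, stdHom_apply]
    congr 1
    funext m
    simp only [Finset.sum_apply]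
    exact heq m k
  · rw [← map_sum]
    apply hne
    intro m
    simp only [Finset.sum_apply]
    exact hS m

end Pool.Agent.Y893.Ch
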