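import Pool.Agent.Helper448.Warren

set_option autoImplicit false

namespace Pool.Agent.Y893.Ch

open MvPolynomial Pool.Agent.Helper448.Warren

variable {σ : Type*} [Fintype σ] [DecidableEq σ]

/-- A nonnegative polynomial of degree at most `D` on `ℝ ^ σ` has at most `D ^ |σ|` isolated
zeros. -/
theorem card_isolated_le (f : MvPolynomial σ ℝ) (D : ℕ) (hD : 0 < D) (hf : f.totalDegree ≤ D)
    (h0 : ∀ x, 0 ≤ eval x f) (P : Finset (σ → ℝ)) (hP : ∀ x ∈ P, eval x f = 0)
    (hiso : ∀ x ∈ P, ∀ᶠ y in nhds x, y ≠ x → eval y f ≠ 0) :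
    P.card ≤ D ^ Fintype.card σ := by
  classical
  rcases P.eq_empty_or_nonempty with hPe | hPne
  · simp [hPe]
  -- disjoint closed balls
  have hrad : ∀ x ∈ P, ∃ r > 0, (∀ y, dist y x ≤ r → y ≠ x → 0 < eval y f) ∧
      ∀ y ∈ P, y ≠ x → 2 * r < dist x y := by
    intro x hx
    obtain ⟨r₁, hr₁, h₁⟩ := Metric.eventually_nhds_iff.mp (hiso x hx)
    have hfin : ∃ r₂ > 0, ∀ y ∈ P, y ≠ x → r₂ ≤ dist x y := by
      rcases (P.erase x).eq_empty_or_nonempty with he | he
      · refine ⟨1, one_pos, fun y hy hyx => ?_⟩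
        exact absurd (Finset.mem_erase.mpr ⟨hyx, hy⟩) (by rw [he]; exact Finset.notMem_empty _)
      · obtain ⟨y₀, hy₀, hmin⟩ := (P.erase x).exists_min_image (fun y => dist x y) he
        refine ⟨dist x y₀, dist_pos.mpr (Finset.mem_erase.mp hy₀).1.symm, fun y hy hyx => ?_⟩
        exact hmin y (Finset.mem_erase.mpr ⟨hyx, hy⟩)
    obtain ⟨r₂, hr₂, h₂⟩ := hfin
    refine ⟨min (r₁ / 2) (r₂ / 3), by positivity, fun y hy hyx => ?_, fun y hy hyx => ?_⟩
    · have h3 : dist y x < r₁ := by
        have := hy.trans (min_le_left _ _)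
        linarith
      exact lt_of_le_of_ne (h0 y) (h₁ h3 hyx).symm
    · have h3 := h₂ y hy hyx
      have h4 : min (r₁ / 2) (r₂ / 3) ≤ r₂ / 3 := min_le_right _ _
      linarith
  choose! r hr hpos hsep using hrad
  -- a lower bound of `f` on the spheres
  have hsphere : ∀ x ∈ P, ∃ m > 0, ∀ y ∈ Metric.sphere x (r x), m ≤ eval y f := by
    intro x hx
    rcases (Metric.sphere x (r x)).eq_empty_or_nonempty with he | he
    · exact ⟨1, one_pos, fun y hy => absurd hy (by rw [he]; exact Set.notMem_empty _)⟩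
    · obtain ⟨z, hz, hmin⟩ := (isCompact_sphere x (r x)).exists_isMinOn he
        (MvPolynomial.continuous_eval f).continuousOn
      have hzx : z ≠ x := by
        rintro rfl
        have h1 := hr z hx
        have h2 : dist z z = r z := hz
        rw [dist_self] at h2
        linarith
      exact ⟨eval z f, hpos x hx z (le_of_eq hz) hzx, fun y hy => hmin hy⟩
  choose! m hm hmle using hsphere
  obtain ⟨x₁, hx₁, hx₁min⟩ := P.exists_min_image m hPne
  set m0 := m x₁ with hm0
  have hm0pos : 0 < m0 := hm x₁ hx₁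
  set S : MvPolynomial σ ℝ := ∑ j, X j ^ (D + 1) with hS
  have hScont : Continuous (fun x : σ → ℝ => eval x S) := MvPolynomial.continuous_eval S
  have hbd : ∀ x ∈ P, ∃ B, ∀ y ∈ Metric.closedBall x (r x), ‖eval y S‖ ≤ B := fun x _ =>
    (isCompact_closedBall x (r x)).exists_bound_of_continuousOn hScont.continuousOn
  choose! B hB using hbd
  obtain ⟨x₂, hx₂, hx₂max⟩ := P.exists_max_image B hPne
  set M := B x₂ with hM
  have hM0 : 0 ≤ M := (norm_nonneg _).trans (hB x₂ hx₂ x₂ (Metric.mem_closedBall_self (hr x₂ hx₂).le))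
  have hMb : ∀ x ∈ P, ∀ y ∈ Metric.closedBall x (r x), |eval y S| ≤ M := fun x hx y hy => by
    rw [← Real.norm_eq_abs]
    exact (hB x hx y hy).trans (hx₂max x hx)
  set t : ℝ := m0 / (2 * (M + 1)) with ht
  have htpos : 0 < t := by positivity
  have htM : t * M < m0 / 2 := by
    rw [ht, div_mul_eq_mul_div, div_lt_div_iff₀ (by positivity) (by norm_num)]
    nlinarith
  set g : MvPolynomial σ ℝ := -f with hg
  set h : MvPolynomial σ ℝ := g + C t * S with hh
  have hhev : ∀ x : σ → ℝ, eval x h = -eval x f + t * eval x S := by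
    intro x; simp [hh, hg]
  have hhcont : Continuous (fun x : σ → ℝ => eval x h) := MvPolynomial.continuous_eval h
  have key : ∀ x ∈ P, ∃ z : σ → ℝ, dist z x < r x ∧ IsLocalMax (fun y => eval y h) z := by
    intro x hx
    have hxb : x ∈ Metric.closedBall x (r x) := Metric.mem_closedBall_self (hr x hx).le
    obtain ⟨z, hz, hmax⟩ := (isCompact_closedBall x (r x)).exists_isMaxOn ⟨x, hxb⟩
      hhcont.continuousOn
    have hzx : eval x h ≤ eval z h := hmax hxb
    rw [hhev, hhev, hP x hx] at hzx
    have h1 := abs_le.mp (hMb x hx x hxb)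
    have h2 := abs_le.mp (hMb x hx z hz)
    have hlt : dist z x < r x := by
      refine lt_of_le_of_ne hz fun heq => ?_
      have h3 := hmle x hx z heq
      have h4 := hx₁min x hx
      nlinarith [mul_le_mul_of_nonneg_left h1.1 htpos.le, mul_le_mul_of_nonneg_left h2.2 htpos.le]
    refine ⟨z, hlt, ?_⟩
    filter_upwards [Metric.isOpen_ball.mem_nhds (Metric.mem_ball.mpr hlt)] with y hy
    exact hmax (Metric.ball_subset_closedBall hy)
  choose! z hz1 hz2 using key
  have hzinj : Set.InjOn z P := by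
    intro x hx y hy hxy
    by_contra hne
    have h1 := hz1 x hx
    have h2 := hz1 y hy
    have h3 := hsep x hx y hy (Ne.symm hne)
    have h4 := hsep y hy x hx hne
    rw [← hxy] at h2
    have h5 : dist x y ≤ dist (z x) x + dist (z x) y := by
      rw [dist_comm (z x) x]; exact dist_triangle _ _ _
    rw [dist_comm y x] at h4
    linarith
  rw [← Finset.card_image_of_injOn hzinj]
  have hgdeg : g.totalDegree ≤ D := by rw [hg, totalDegree_neg]; exact hf
  refine card_zeros_le D (t * (D + 1)) (by positivity) (fun j => pderiv j g)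
    (fun j => totalDegree_pderiv_lt g D hD hgdeg j) _ ?_
  intro w hw j
  obtain ⟨x, hx, rfl⟩ := Finset.mem_image.mp hw
  have h1 := pderiv_eq_zero_of_isLocalMax h (z x) (hz2 x hx) j
  have h2 : pderiv j h = pderiv j g + C (t * (D + 1)) * X j ^ D := by
    rw [hh, map_add, pderiv_C_mul, hS, map_sum, Finset.sum_eq_single j]
    · rw [pderiv_pow]
      simp only [pderiv_X_self, mul_one, add_tsub_cancel_right, map_mul, map_add, map_one]
      push_cast
      simp only [map_natCast]
      ring
    · intro i _ hij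
      rw [pderiv_pow, pderiv_X_of_ne hij, mul_zero]
    · intro hj; exact absurd (Finset.mem_univ j) hj
  rw [h2] at h1
  simp only [map_add, map_mul, eval_C, map_pow, eval_X] at h1
  linarith

end Pool.Agent.Y893.Ch
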