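import Pool.Agent.Y893.Ch.Fin
import Pool.Agent.Y893.Ch.Isol

set_option autoImplicit false

namespace Pool.Agent.Y893.Ch

open scoped BigOperators
open MvPolynomial

variable {d N M : ℕ}

/-- the system of equations satisfied by an equilibrium `x` and the numbers
`t i = |x - a i| ^ (-1/D)` -/
structure Sol (D : ℕ) (a : Fin N → EuclideanSpace ℝ (Fin d)) (c : Fin N → Fin (M + 1) → ℝ)
    (e : EuclideanSpace ℝ (Fin d)) (t : Fin N → ℝ) (x : EuclideanSpace ℝ (Fin d)) : Prop where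
  pos : ∀ i, 0 < t i
  nrm : ∀ i, (t i)⁻¹ ^ D = ‖x - a i‖
  eqn : ∀ k, ∑ i, pol (c i) (t i) * (x k - a i k) = e k
  tot : ∑ i, pol (c i) (t i) ≠ 0

theorem Sol.ne {D : ℕ} {a : Fin N → EuclideanSpace ℝ (Fin d)} {c : Fin N → Fin (M + 1) → ℝ}
    {e : EuclideanSpace ℝ (Fin d)} {t : Fin N → ℝ} {x : EuclideanSpace ℝ (Fin d)}
    (h : Sol D a c e t x) (i : Fin N) : x ≠ a i := by
  intro hx
  have h1 := h.nrm i
  rw [hx, sub_self, norm_zero] at h1
  have h2 : 0 < (t i)⁻¹ ^ D := pow_pos (inv_pos.mpr (h.pos i)) D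
  linarith

/-- the polynomials of the system -/
noncomputable def g1 (D : ℕ) (a : Fin N → EuclideanSpace ℝ (Fin d)) (i : Fin N) :
    MvPolynomial (Fin N ⊕ Fin d) ℝ :=
  X (Sum.inl i) ^ (2 * D) * (∑ k, (X (Sum.inr k) - C (a i k)) ^ 2) - 1

/-- the polynomials of the system -/
noncomputable def g2 (a : Fin N → EuclideanSpace ℝ (Fin d)) (c : Fin N → Fin (M + 1) → ℝ)
    (e : EuclideanSpace ℝ (Fin d)) (k : Fin d) : MvPolynomial (Fin N ⊕ Fin d) ℝ :=
  ∑ i, (∑ l, C (c i l) * X (Sum.inl i) ^ (l : ℕ)) * (X (Sum.inr k) - C (a i k)) - C (e k)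

/-- the sum of the squares -/
noncomputable def ff (D : ℕ) (a : Fin N → EuclideanSpace ℝ (Fin d)) (c : Fin N → Fin (M + 1) → ℝ)
    (e : EuclideanSpace ℝ (Fin d)) : MvPolynomial (Fin N ⊕ Fin d) ℝ :=
  ∑ i, g1 D a i ^ 2 + ∑ k, g2 a c e k ^ 2

theorem totalDegree_g1 (D : ℕ) (a : Fin N → EuclideanSpace ℝ (Fin d)) (i : Fin N) :
    (g1 D a i).totalDegree ≤ 2 * D + 2 := by
  unfold g1
  refine (totalDegree_sub _ _).trans (max_le ?_ (by simp))
  refine (totalDegree_mul _ _).trans (Nat.add_le_add ?_ ?_)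
  · rw [totalDegree_X_pow]
  · refine totalDegree_finsetSum_le fun k _ => (totalDegree_pow _ _).trans ?_
    have : (X (Sum.inr k) - C (a i k) : MvPolynomial (Fin N ⊕ Fin d) ℝ).totalDegree ≤ 1 :=
      (totalDegree_sub _ _).trans (max_le (by rw [totalDegree_X]) (by simp))
    omega

theorem totalDegree_g2 (a : Fin N → EuclideanSpace ℝ (Fin d)) (c : Fin N → Fin (M + 1) → ℝ)
    (e : EuclideanSpace ℝ (Fin d)) (k : Fin d) : (g2 a c e k).totalDegree ≤ M + 1 := by
  unfold g2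
  refine (totalDegree_sub _ _).trans (max_le ?_ (by simp))
  refine totalDegree_finsetSum_le fun i _ => ?_
  refine (totalDegree_mul _ _).trans (Nat.add_le_add ?_ ?_)
  · refine totalDegree_finsetSum_le fun l _ => ?_
    refine (totalDegree_mul _ _).trans ?_
    rw [totalDegree_C, totalDegree_X_pow, zero_add]
    omega
  · exact (totalDegree_sub _ _).trans (max_le (by rw [totalDegree_X]) (by simp))

theorem totalDegree_ff (D : ℕ) (a : Fin N → EuclideanSpace ℝ (Fin d))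
    (c : Fin N → Fin (M + 1) → ℝ) (e : EuclideanSpace ℝ (Fin d)) :
    (ff D a c e).totalDegree ≤ 2 * max (2 * D + 2) (M + 1) := by
  unfold ff
  refine (totalDegree_add _ _).trans (max_le ?_ ?_)
  · refine totalDegree_finsetSum_le fun i _ => (totalDegree_pow _ _).trans ?_
    exact Nat.mul_le_mul_left 2 ((totalDegree_g1 D a i).trans (le_max_left _ _))
  · refine totalDegree_finsetSum_le fun k _ => (totalDegree_pow _ _).trans ?_
    exact Nat.mul_le_mul_left 2 ((totalDegree_g2 a c e k).trans (le_max_right _ _))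

theorem eval_g1 (D : ℕ) (a : Fin N → EuclideanSpace ℝ (Fin d)) (i : Fin N)
    (y : Fin N ⊕ Fin d → ℝ) :
    eval y (g1 D a i) = y (Sum.inl i) ^ (2 * D) * (∑ k, (y (Sum.inr k) - a i k) ^ 2) - 1 := by
  simp [g1]

theorem eval_g2 (a : Fin N → EuclideanSpace ℝ (Fin d)) (c : Fin N → Fin (M + 1) → ℝ)
    (e : EuclideanSpace ℝ (Fin d)) (k : Fin d) (y : Fin N ⊕ Fin d → ℝ) :
    eval y (g2 a c e k) =
      ∑ i, pol (c i) (y (Sum.inl i)) * (y (Sum.inr k) - a i k) - e k := by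
  simp [g2, pol]

theorem eval_ff (D : ℕ) (a : Fin N → EuclideanSpace ℝ (Fin d)) (c : Fin N → Fin (M + 1) → ℝ)
    (e : EuclideanSpace ℝ (Fin d)) (y : Fin N ⊕ Fin d → ℝ) :
    eval y (ff D a c e) = ∑ i, eval y (g1 D a i) ^ 2 + ∑ k, eval y (g2 a c e k) ^ 2 := by
  simp [ff]

theorem eval_ff_nonneg (D : ℕ) (a : Fin N → EuclideanSpace ℝ (Fin d))
    (c : Fin N → Fin (M + 1) → ℝ) (e : EuclideanSpace ℝ (Fin d)) (y : Fin N ⊕ Fin d → ℝ) :
    0 ≤ eval y (ff D a c e) := by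
  rw [eval_ff]
  exact add_nonneg (Finset.sum_nonneg fun i _ => sq_nonneg _)
    (Finset.sum_nonneg fun i _ => sq_nonneg _)

theorem eval_ff_eq_zero (D : ℕ) (a : Fin N → EuclideanSpace ℝ (Fin d))
    (c : Fin N → Fin (M + 1) → ℝ) (e : EuclideanSpace ℝ (Fin d)) (y : Fin N ⊕ Fin d → ℝ) :
    eval y (ff D a c e) = 0 ↔
      (∀ i, eval y (g1 D a i) = 0) ∧ ∀ k, eval y (g2 a c e k) = 0 := by
  rw [eval_ff]
  constructor
  · intro h
    have h1 : 0 ≤ ∑ i, eval y (g1 D a i) ^ 2 := Finset.sum_nonneg fun i _ => sq_nonneg _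
    have h2 : 0 ≤ ∑ k, eval y (g2 a c e k) ^ 2 := Finset.sum_nonneg fun i _ => sq_nonneg _
    have h3 : ∑ i, eval y (g1 D a i) ^ 2 = 0 := by linarith
    have h4 : ∑ k, eval y (g2 a c e k) ^ 2 = 0 := by linarith
    constructor
    · intro i
      have := (Finset.sum_eq_zero_iff_of_nonneg (fun i _ => sq_nonneg _)).mp h3 i
        (Finset.mem_univ _)
      exact pow_eq_zero_iff two_ne_zero |>.mp this
    · intro k
      have := (Finset.sum_eq_zero_iff_of_nonneg (fun i _ => sq_nonneg _)).mp h4 k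
        (Finset.mem_univ _)
      exact pow_eq_zero_iff two_ne_zero |>.mp this
  · rintro ⟨h1, h2⟩
    simp [h1, h2]

/-- the point of the space `ℝ ^ (N + d)` -/
def lft (t : Fin N → ℝ) (x : EuclideanSpace ℝ (Fin d)) : Fin N ⊕ Fin d → ℝ :=
  Sum.elim t (fun k => x k)

theorem zero_of_sol {D : ℕ} {a : Fin N → EuclideanSpace ℝ (Fin d)}
    {c : Fin N → Fin (M + 1) → ℝ} {e : EuclideanSpace ℝ (Fin d)} {t : Fin N → ℝ}
    {x : EuclideanSpace ℝ (Fin d)} (h : Sol D a c e t x) :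
    eval (lft t x) (ff D a c e) = 0 := by
  rw [eval_ff_eq_zero]
  constructor
  · intro i
    rw [eval_g1]
    simp only [lft, Sum.elim_inl, Sum.elim_inr]
    have h1 : ∑ k, (x k - a i k) ^ 2 = ‖x - a i‖ ^ 2 := by
      rw [EuclideanSpace.real_norm_sq_eq]; simp
    rw [h1, ← h.nrm i, ← pow_mul, mul_comm D 2, inv_pow,
      mul_inv_cancel₀ (pow_ne_zero _ (h.pos i).ne'), sub_self]
  · intro k
    rw [eval_g2]
    simp only [lft, Sum.elim_inl, Sum.elim_inr]
    rw [h.eqn k, sub_self]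

theorem sol_of_zero {D : ℕ} (hD : 1 ≤ D) {a : Fin N → EuclideanSpace ℝ (Fin d)}
    {c : Fin N → Fin (M + 1) → ℝ} {e : EuclideanSpace ℝ (Fin d)}
    {y : Fin N ⊕ Fin d → ℝ} (h0 : eval y (ff D a c e) = 0) (hpos : ∀ i, 0 < y (Sum.inl i))
    (htot : ∑ i, pol (c i) (y (Sum.inl i)) ≠ 0) :
    Sol D a c e (fun i => y (Sum.inl i)) (WithLp.toLp 2 (fun k => y (Sum.inr k))) := by
  rw [eval_ff_eq_zero] at h0
  obtain ⟨h1, h2⟩ := h0
  refine ⟨hpos, fun i => ?_, fun k => ?_, htot⟩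
  · have h3 := h1 i
    rw [eval_g1] at h3
    have h4 : ∑ k, (y (Sum.inr k) - a i k) ^ 2 =
        ‖(WithLp.toLp 2 (fun k => y (Sum.inr k)) : EuclideanSpace ℝ (Fin d)) - a i‖ ^ 2 := by
      rw [EuclideanSpace.real_norm_sq_eq]; simp
    rw [h4] at h3
    set n := ‖(WithLp.toLp 2 (fun k => y (Sum.inr k)) : EuclideanSpace ℝ (Fin d)) - a i‖
    have h5 : 0 < y (Sum.inl i) ^ D := pow_pos (hpos i) D
    have h6 : (y (Sum.inl i) ^ D * n) ^ 2 = 1 := by
      rw [mul_pow, ← pow_mul, mul_comm D 2]; linarith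
    have h7 : y (Sum.inl i) ^ D * n = 1 := by
      have h8 : 0 ≤ y (Sum.inl i) ^ D * n := mul_nonneg h5.le (norm_nonneg _)
      nlinarith
    rw [inv_pow]
    exact (eq_inv_of_mul_eq_one_right h7).symm
  · have h3 := h2 k
    rw [eval_g2] at h3
    simpa using sub_eq_zero.mp h3

theorem sol_unique {D : ℕ} (hD : 1 ≤ D) {a : Fin N → EuclideanSpace ℝ (Fin d)}
    {c : Fin N → Fin (M + 1) → ℝ} {e : EuclideanSpace ℝ (Fin d)} {t t' : Fin N → ℝ}
    {x : EuclideanSpace ℝ (Fin d)} (h : Sol D a c e t x) (h' : Sol D a c e t' x) : t = t' := by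
  funext i
  have h1 : (t i)⁻¹ ^ D = (t' i)⁻¹ ^ D := by rw [h.nrm, h'.nrm]
  have h2 := (pow_left_inj₀ (inv_pos.mpr (h.pos i)).le (inv_pos.mpr (h'.pos i)).le
    (by omega : D ≠ 0)).mp h1
  exact inv_injective h2

/-- **Explicit bound.** -/
theorem general {D : ℕ} (hD : 1 ≤ D)
    (a : Fin N → EuclideanSpace ℝ (Fin d)) (c : Fin N → Fin (M + 1) → ℝ)
    (ha : Function.Injective a) (hc : ∀ i, ∃ m : Fin (M + 1), D < (m : ℕ) ∧ c i m ≠ 0)
    (e : EuclideanSpace ℝ (Fin d)) :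
    {x | ∃ t, Sol D a c e t x}.Finite ∧
      {x | ∃ t, Sol D a c e t x}.ncard ≤ (2 * max (2 * D + 2) (M + 1)) ^ (N + d) := by
  classical
  set E := {x | ∃ t, Sol D a c e t x} with hEdef
  have hfin : E.Finite := by
    refine finite_solutions hD a c ha hc e E ?_
    rintro x ⟨t, ht⟩
    exact ⟨ht.ne, t, ht.pos, ht.nrm, ht.eqn, ht.tot⟩
  refine ⟨hfin, ?_⟩
  have hch : ∀ x ∈ E, ∃ t, Sol D a c e t x := fun x hx => hx
  choose! t ht using hch
  set P : Finset (Fin N ⊕ Fin d → ℝ) := hfin.toFinset.image (fun x => lft (t x) x) with hPdef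
  have hinj : Set.InjOn (fun x => lft (t x) x) (hfin.toFinset : Set (EuclideanSpace ℝ (Fin d))) := by
    intro x _ y _ hxy
    ext k
    exact congrFun hxy (Sum.inr k)
  have hcard : P.card = E.ncard := by
    rw [hPdef, Finset.card_image_of_injOn hinj, Set.ncard_eq_toFinset_card E hfin]
  rw [← hcard]
  have hmain := card_isolated_le (ff D a c e) (2 * max (2 * D + 2) (M + 1))
    (by have := le_max_left (2 * D + 2) (M + 1); omega) (totalDegree_ff D a c e)
    (eval_ff_nonneg D a c e) P ?_ ?_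
  · refine hmain.trans (le_of_eq ?_)
    simp
  · intro y hy
    obtain ⟨x, hx, rfl⟩ := Finset.mem_image.mp hy
    exact zero_of_sol (ht x (by simpa using hx))
  · intro y hy
    obtain ⟨x, hx, rfl⟩ := Finset.mem_image.mp hy
    have hxE : x ∈ E := by simpa using hx
    have hs := ht x hxE
    have hcont : Continuous fun z : Fin N ⊕ Fin d → ℝ =>
        (WithLp.toLp 2 (fun k => z (Sum.inr k)) : EuclideanSpace ℝ (Fin d)) :=
      (PiLp.continuous_toLp 2 _).comp (by fun_prop)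
    have hO1 : IsOpen {z : Fin N ⊕ Fin d → ℝ | ∀ i, 0 < z (Sum.inl i)} := by
      rw [Set.ofPred_forall]
      exact isOpen_iInter_of_finite fun i => isOpen_lt continuous_const (continuous_apply _)
    have hO2 : IsOpen {z : Fin N ⊕ Fin d → ℝ | ∑ i, pol (c i) (z (Sum.inl i)) ≠ 0} := by
      refine isOpen_ne_fun ?_ continuous_const
      unfold pol
      fun_prop
    have hO3 : IsOpen {z : Fin N ⊕ Fin d → ℝ |
        (WithLp.toLp 2 (fun k => z (Sum.inr k)) : EuclideanSpace ℝ (Fin d)) ∈ (E \ {x})ᶜ} :=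
      ((hfin.subset Set.sdiff_subset).isClosed.isOpen_compl).preimage hcont
    have hm1 : lft (t x) x ∈ {z : Fin N ⊕ Fin d → ℝ | ∀ i, 0 < z (Sum.inl i)} := fun i => hs.pos i
    have hm2 : lft (t x) x ∈ {z : Fin N ⊕ Fin d → ℝ | ∑ i, pol (c i) (z (Sum.inl i)) ≠ 0} := hs.tot
    have hm3 : lft (t x) x ∈ {z : Fin N ⊕ Fin d → ℝ |
        (WithLp.toLp 2 (fun k => z (Sum.inr k)) : EuclideanSpace ℝ (Fin d)) ∈ (E \ {x})ᶜ} := by
      have : (WithLp.toLp 2 (fun k => lft (t x) x (Sum.inr k)) : EuclideanSpace ℝ (Fin d)) = x := by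
        ext k
        simp [lft]
      simp only [Set.mem_ofPred_eq, this]
      simp
    filter_upwards [hO1.mem_nhds hm1, hO2.mem_nhds hm2, hO3.mem_nhds hm3] with z hz1 hz2 hz3 hzne hz0
    apply hzne
    have hsz := sol_of_zero hD hz0 hz1 hz2
    have hzx : (WithLp.toLp 2 (fun k => z (Sum.inr k)) : EuclideanSpace ℝ (Fin d)) = x := by
      by_contra hcon
      exact hz3 ⟨⟨_, hsz⟩, hcon⟩
    rw [hzx] at hsz
    have htt := sol_unique hD hsz hs
    funext j
    rcases j with i | k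
    · simp only [lft, Sum.elim_inl]
      exact congrFun htt i
    · simp only [lft, Sum.elim_inr]
      rw [← hzx]

end Pool.Agent.Y893.Ch
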